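import Pool.Agent.TH618.MC.StmSys
import Pool.Agent.H269R2.ONJ.Exit

/-!
# Project MC (helper618): reflections of components at the vertices (job 2686)
-/

set_option autoImplicit false

noncomputable section

namespace Pool.Agent.TH792.MC618

open MeasureTheory
open Pool.Agent.H5R2.ON Pool.Agent.H717R2.ON3 Pool.Agent.H983R2.ONJ Pool.Agent.H556R5
open Pool.Agent.TH618.MC
open Pool.Agent.H983R2.ONJ.Aux269

section
variable {V : Type} [Fintype V] [DecidableEq V]

/-- reflection of the component `i` at the vertices of `A` -/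
def FF (A : Finset V) (i : Fin 4) (S : V → Sph 4) : V → Sph 4 :=
  fun v => if v ∈ A then refS i (S v) else S v

theorem mp_FF (A : Finset V) (i : Fin 4) : MeasurePreserving (FF A i) (pr V 4) (pr V 4) := by
  have hfin : SigmaFinite (unif 4) := by
    have : IsFiniteMeasure (unif 4) := inferInstance
    infer_instance
  have h : ∀ v : V, MeasurePreserving (fun s : Sph 4 => if v ∈ A then refS i s else s)
      (unif 4) (unif 4) := by
    intro v
    by_cases hv : v ∈ A
    · simp only [if_pos hv]
      exact mp_refS i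
    · simp only [if_neg hv]
      exact MeasurePreserving.id _
  exact measurePreserving_pi (fun _ => unif 4) (fun _ => unif 4) h

omit [Fintype V] in
theorem cc_FF (A : Finset V) (i j : Fin 4) (S : V → Sph 4) (v : V) :
    cc j (FF A i S v) = if v ∈ A ∧ j = i then -cc j (S v) else cc j (S v) := by
  unfold FF
  by_cases hv : v ∈ A
  · rw [if_pos hv]
    by_cases hj : j = i
    · subst hj
      rw [if_pos ⟨hv, rfl⟩, cc_refS]
    · rw [if_neg (fun h => hj h.2), cc_refS_ne hj]
  · rw [if_neg hv, if_neg (fun h => hv h.1)]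

theorem sph_ext {s t : Sph 4} (h : ∀ i, cc i s = cc i t) : s = t := by
  apply Subtype.ext
  ext i
  exact h i

theorem cc_neg (i : Fin 4) (s : Sph 4) : cc i (-s) = -cc i s := by
  rfl

end

theorem flip : S_flip := by
  intro V _ _ A
  refine ⟨fun S => FF (A 0) 0 (FF (A 1) 1 (FF (A 2) 2 (FF (A 3) 3 S))), ?_, ?_, ?_, ?_⟩
  · exact (mp_FF (A 0) 0).comp ((mp_FF (A 1) 1).comp ((mp_FF (A 2) 2).comp (mp_FF (A 3) 3)))
  all_goals
    have key : ∀ (S : V → Sph 4) (v : V) (i : Fin 4),
        cc i (FF (A 0) 0 (FF (A 1) 1 (FF (A 2) 2 (FF (A 3) 3 S))) v) =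
          if v ∈ A i then -cc i (S v) else cc i (S v) := by
      intro S v i
      rw [cc_FF, cc_FF, cc_FF, cc_FF]
      fin_cases i <;> simp
  · exact key
  · intro S v hv
    apply sph_ext
    intro i
    show cc i (FF (A 0) 0 (FF (A 1) 1 (FF (A 2) 2 (FF (A 3) 3 S))) v) = _
    rw [key, if_pos (hv i), cc_neg]
  · intro S v hv
    apply sph_ext
    intro i
    show cc i (FF (A 0) 0 (FF (A 1) 1 (FF (A 2) 2 (FF (A 3) 3 S))) v) = _
    rw [key, if_neg (hv i)]

end Pool.Agent.TH792.MC618
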